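import Pool.Agent.H93.Lib.R_pool_sql_team_seeded_63374d34.N19.BR.ParSel
import Pool.Agent.H46.SP.Main

/-!
# The `p`-parity conjecture for curves with arbitrary reduction: fields with at most one small prime, in
which the primes of bad reduction are unramified, suffice

`E` is an elliptic curve over a number field `K` (more generally an abelian variety), `X` a natural number,
which may be larger than the norms of the primes of bad reduction.  There is no condition on the
reduction of `E`.

*The Selmer ranks.*  For a prime number `p` let `W_p(E)` be the direct limit of the spaces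
`Hom(ℚ_p/ℤ_p, Sel_{p^∞}(E/F)) ⊗ ℚ` over all finite extensions `F` of `K` in the algebraic closure: a
representation of the absolute Galois group `G_K` over `k = ℚ_p`.  By Galois descent for Selmer groups the
space of the elements of `W_p(E)` fixed by `G_F` has dimension `rk_p E/F`.  The theorem is for
arbitrary representations.

*The root numbers.*  `w(E/F)` is the product of the local root numbers of `E` over the completions of
`F`: it is `-1` for the archimedean places, `1` for the primes of good reduction, and if `K_v` is unramified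
in `F_w`, of residue degree `f`, it is the local root number `λ_v(f)` of `E` over the unramified extension of
`K_v` of degree `f`.  So `w(E/F)` is the number `rootNumber (-1) B λ F` below, if the finite set `B`
contains the primes of `K` of bad reduction and these are unramified in `F`.  The theorem holds for
arbitrary functions `λ_v`.

The proof.  There is a relation `∑ e_j [F_j] = [K]` between the permutation characters of number fields
`F_j ⊇ K` in which the primes of norm `≤ X` are unramified and which have at most one prime ideal of norm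
`≤ X` (`Pool.Agent.H46.SP`, used before for the Birch and Swinnerton-Dyer conjecture).  The relation holds
for the dimensions of the fixed spaces and the numbers of archimedean places, and for all numbers of the
form `∑_{w | v} g(f(w))` (`Pool.Agent.N19.BR.loc_rel`), so for the root numbers.
-/

set_option autoImplicit false

namespace Pool.Agent.Results.MP_ddf76b_nt.ArbitraryReduction

open NumberField IsDedekindDomain
open Pool.Agent.R433.MD (Ext Fib fdeg)
open Pool.Agent.N19.BR (IsRel)
open Pool.Agent.N19.BR.Def Pool.Agent.N19.BR.FDef Pool.Agent.N19.BR.MDef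

/-- The number field `F` has at most one prime ideal of norm `≤ X`. -/
def AtMostOneSmallPrime (X : ℕ) (F : Type) [Field F] [NumberField F] : Prop :=
  ∀ w w' : HeightOneSpectrum (𝓞 F),
    Ideal.absNorm w.asIdeal ≤ X → Ideal.absNorm w'.asIdeal ≤ X → w = w'

/-- The primes of `K` of norm `≤ X` are unramified in `F`: they are not contained in the square of a
prime of `F`. -/
def UnramifiedUpTo (X : ℕ) (K F : Type) [Field K] [NumberField K] [Field F] [NumberField F]
    [Algebra K F] : Prop :=
  ∀ v : HeightOneSpectrum (𝓞 K), Ideal.absNorm v.asIdeal ≤ X →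
    ∀ w : HeightOneSpectrum (𝓞 F), ¬ v.asIdeal.map (algebraMap (𝓞 K) (𝓞 F)) ≤ w.asIdeal ^ 2

theorem atMostOne_equiv {X : ℕ} {F F' : Type} [Field F] [NumberField F] [Field F'] [NumberField F']
    (e : F ≃+* F') (h : AtMostOneSmallPrime X F) : AtMostOneSmallPrime X F' := by
  intro w w' hw hw'
  let f : 𝓞 F' ≃+* 𝓞 F := RingOfIntegers.mapRingEquiv e.symm
  have key : ∀ u : HeightOneSpectrum (𝓞 F'),
      Ideal.absNorm (HeightOneSpectrum.equivOfRingEquiv f u).asIdeal = Ideal.absNorm u.asIdeal := by
    intro u
    rw [Ideal.absNorm_apply, Ideal.absNorm_apply, Submodule.cardQuot_apply,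
      Submodule.cardQuot_apply]
    refine Nat.card_congr (Ideal.quotientEquiv _ _ f.symm ?_).toEquiv
    exact (Ideal.map_comap_eq_self_of_equiv f.symm u.asIdeal).symm
  exact (HeightOneSpectrum.equivOfRingEquiv f).injective
    (h _ _ (by rw [key]; exact hw) (by rw [key]; exact hw'))

section
variable {K : Type} [Field K] [NumberField K]

theorem unram_equiv {X : ℕ} {F F' : Type} [Field F] [NumberField F] [Field F'] [NumberField F']
    [Algebra K F] [Algebra K F'] (e : F ≃ₐ[K] F') (h : UnramifiedUpTo X K F) :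
    UnramifiedUpTo X K F' := by
  intro v hv w hw
  let f : 𝓞 F ≃+* 𝓞 F' := RingOfIntegers.mapRingEquiv e.toRingEquiv
  let u : HeightOneSpectrum (𝓞 F) := HeightOneSpectrum.equivOfRingEquiv f.symm w
  have hu : u.asIdeal = w.asIdeal.comap (f : 𝓞 F →+* 𝓞 F') := rfl
  apply h v hv u
  rw [Ideal.map_le_iff_le_comap] at hw ⊢
  intro x hx
  have h1 := hw hx
  rw [Ideal.mem_comap] at h1 ⊢
  have h2 : f (algebraMap (𝓞 K) (𝓞 F) x) = algebraMap (𝓞 K) (𝓞 F') x := by
    apply RingOfIntegers.ext
    change e (algebraMap K F (x : K)) = algebraMap K F' (x : K)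
    exact e.commutes _
  have h3 : u.asIdeal ^ 2 = (w.asIdeal ^ 2).comap (f : 𝓞 F →+* 𝓞 F') := by
    have h4 : w.asIdeal = u.asIdeal.map (f : 𝓞 F →+* 𝓞 F') := by
      rw [hu]
      exact (Ideal.map_comap_eq_self_of_equiv f w.asIdeal).symm
    rw [h4, ← Ideal.map_pow]
    exact (Ideal.comap_map_of_bijective _ f.bijective).symm
  rw [h3, Ideal.mem_comap]
  change f (algebraMap (𝓞 K) (𝓞 F) x) ∈ _
  rw [h2]
  exact h1

theorem unram_sub {X : ℕ} {L : Type} [Field L] [NumberField L] [Algebra K L] [IsGalois K L]
    (h : ∀ (w : HeightOneSpectrum (𝓞 L)) (u : HeightOneSpectrum (𝓞 K)),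
        w.asIdeal.under (𝓞 K) = u.asIdeal → Nat.card (𝓞 K ⧸ u.asIdeal) ≤ X →
        ∀ β : Gal(L/K), (∀ x : 𝓞 L, β • x - x ∈ w.asIdeal) → β = 1)
    (F : IntermediateField K L) : UnramifiedUpTo X K F := by
  intro v hv w hw
  -- a prime of `L` above `w`
  obtain ⟨W, -, hWp, hW⟩ := Ideal.exists_ideal_over_prime_of_isIntegral (S := 𝓞 L) w.asIdeal ⊥
      (by
        rw [← RingHom.ker_eq_comap_bot, (RingHom.injective_iff_ker_eq_bot _).1
          (FaithfulSMul.algebraMap_injective (𝓞 F) (𝓞 L))]
        exact bot_le)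
  have hW0 : W ≠ ⊥ := by
    rintro rfl
    apply w.ne_bot
    rw [← hW, ← RingHom.ker_eq_comap_bot, (RingHom.injective_iff_ker_eq_bot _).1
          (FaithfulSMul.algebraMap_injective (𝓞 F) (𝓞 L))]
  let W' : HeightOneSpectrum (𝓞 L) := ⟨W, hWp, hW0⟩
  have hmapw : w.asIdeal.map (algebraMap (𝓞 F) (𝓞 L)) ≤ W := by
    rw [Ideal.map_le_iff_le_comap, hW]
  have hv1 : v.asIdeal.map (algebraMap (𝓞 K) (𝓞 L)) ≤ W ^ 2 := by
    rw [IsScalarTower.algebraMap_eq (𝓞 K) (𝓞 F) (𝓞 L), ← Ideal.map_map]
    refine (Ideal.map_mono hw).trans ?_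
    rw [Ideal.map_pow]
    exact Ideal.pow_right_mono hmapw 2
  have hle : v.asIdeal ≤ W.under (𝓞 K) := by
    rw [Ideal.under_def, ← Ideal.map_le_iff_le_comap]
    exact hv1.trans (Ideal.pow_le_self two_ne_zero)
  have hne : W.under (𝓞 K) ≠ ⊤ := (Ideal.IsPrime.under (𝓞 K) W).ne_top
  have hund : W.under (𝓞 K) = v.asIdeal := (v.isMaximal.eq_of_le hne hle).symm
  have hlies : W.LiesOver v.asIdeal := ⟨hund.symm⟩
  have hcard : Nat.card (𝓞 K ⧸ v.asIdeal) ≤ X := by
    rw [Ideal.absNorm_apply, Submodule.cardQuot_apply] at hv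
    exact hv
  have h1 := h W' v hund hcard
  have hin : Nat.card (W.inertia Gal(L/K)) = 1 := by
    rw [Nat.card_eq_one_iff_unique]
    refine ⟨⟨fun a b => Subtype.ext ?_⟩, ⟨1⟩⟩
    rw [h1 a.1 (fun x => a.2 x), h1 b.1 (fun x => b.2 x)]
  rw [Ideal.card_inertia_eq_ramificationIdxIn v.asIdeal W] at hin
  rw [Ideal.ramificationIdxIn_eq_ramificationIdx v.asIdeal W Gal(L/K),
    ← Ideal.ramificationIdx'_eq_ramificationIdx v.asIdeal W v.ne_bot] at hin
  exact ((Ideal.ramificationIdx'_ne_one_iff (hv1.trans (Ideal.pow_le_self two_ne_zero))).2 hv1) hin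

/-- the relation between unramified fields with at most one small prime -/
theorem exists_rel (K : Type) [Field K] [NumberField K] (X : ℕ) :
    ∃ (N : ℕ) (Y : Fin N → Ext K) (d : Fin N → ℤ), IsRel K Y d 1 ∧
      ∀ i, AtMostOneSmallPrime X (Y i).F ∧ UnramifiedUpTo X K (Y i).F := by
  obtain ⟨L, _, _, _, hG, hin, S, n, hS, hsum⟩ := Pool.Agent.H46.SP.exists_relation K X
  have h1 := Pool.Agent.N19.BR.isRel_of_fx S n 1 (by simpa using hsum)
  let f : Fin (Fintype.card {F // F ∈ S}) ≃ {F // F ∈ S} := (Fintype.equivFin _).symm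
  refine ⟨_, fun i => ⟨(f i).1⟩, _, h1.reindex f, fun i => ⟨fun w w' hw hw' => ?_, ?_⟩⟩
  · exact Pool.Agent.H46.SP.Fam.unique (hS (f i).1 (f i).2) hw hw'
  · exact unram_sub hin (f i).1

/-- Let `ε = w(E/F_w)` for the archimedean places and `λ_v(f)` the local root number of `E` over the
unramified extension of degree `f` of the completion `K_v`. If the primes in the finite set `B`, which
contains the primes of bad reduction, are unramified in `F / K`, then this is the root number `w(E/F)`. -/
noncomputable def rootNumber (ε : ℤˣ) (B : Finset (HeightOneSpectrum (𝓞 K)))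
    (lam : HeightOneSpectrum (𝓞 K) → ℕ → ℤˣ) (F : Type) [Field F] [NumberField F] [Algebra K F] :
    ℤˣ :=
  ε ^ Nat.card (InfinitePlace F) * ∏ v ∈ B, ∏ w : Fib F v, lam v (fdeg w)

theorem rootNumber_rel {ι : Type} [Fintype ι] {Z : ι → Ext K} {e : ι → ℤ} {m : ℕ}
    (h : IsRel K Z e m) (ε : ℤˣ) (B : Finset (HeightOneSpectrum (𝓞 K)))
    (lam : HeightOneSpectrum (𝓞 K) → ℕ → ℤˣ) :
    ∏ i, rootNumber ε B lam (Z i).F ^ e i =
      (ε ^ Nat.card (InfinitePlace K) * ∏ v ∈ B, lam v 1) ^ m := by
  unfold rootNumber
  simp_rw [mul_zpow, Finset.prod_mul_distrib]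
  rw [mul_pow]
  congr 1
  · have h1 := Pool.Agent.N19.BR.places_rel h
    have h2 : ∀ i, (ε ^ Nat.card (InfinitePlace (Z i).F)) ^ e i =
        ε ^ (e i * (Nat.card (InfinitePlace (Z i).F) : ℤ)) := by
      intro i
      rw [← zpow_natCast, ← zpow_mul, mul_comm]
    have h3 : ∀ T : Finset ι, ∏ i ∈ T, ε ^ (e i * (Nat.card (InfinitePlace (Z i).F) : ℤ)) =
        ε ^ (∑ i ∈ T, e i * (Nat.card (InfinitePlace (Z i).F) : ℤ)) := by
      classical
      intro T
      induction T using Finset.induction_on with
      | empty => simp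
      | insert a T ha ih => rw [Finset.prod_insert ha, Finset.sum_insert ha, zpow_add, ih]
    simp_rw [h2]
    rw [h3, h1, mul_comm, zpow_mul, zpow_natCast, zpow_natCast]
  · have h1 : ∀ i, (∏ v ∈ B, ∏ w : Fib (Z i).F v, lam v (fdeg w)) ^ e i =
        ∏ v ∈ B, (∏ w : Fib (Z i).F v, lam v (fdeg w)) ^ e i := fun i =>
      (Finset.prod_zpow (fun v => ∏ w : Fib (Z i).F v, lam v (fdeg w)) B (e i)).symm
    simp_rw [h1]
    rw [Finset.prod_comm, ← Finset.prod_pow]
    exact Finset.prod_congr rfl fun v _ => Pool.Agent.N19.BR.loc_rel_mul h v (lam v)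

theorem rootNumber_self (ε : ℤˣ) (B : Finset (HeightOneSpectrum (𝓞 K)))
    (lam : HeightOneSpectrum (𝓞 K) → ℕ → ℤˣ) :
    rootNumber ε B lam K = ε ^ Nat.card (InfinitePlace K) * ∏ v ∈ B, lam v 1 := by
  have h := rootNumber_rel (IsRel.self K) ε B lam
  rw [Fintype.prod_unique, zpow_one, pow_one] at h
  exact h

theorem odd_prod {ι : Type} [Fintype ι] [DecidableEq ι] (e : ι → ℤ) [DecidablePred fun i => Odd (e i)]
    (u : ι → ℤˣ) {u₀ : ℤˣ}
    (h : ∏ i, u i ^ e i = u₀) : u₀ = ∏ i with Odd (e i), u i := by
  have h2 : ∀ i, u i ^ e i = if Odd (e i) then u i else 1 := by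
    intro i
    split_ifs with h3
    · rcases Int.units_eq_one_or (u i) with h4 | h4
      · rw [h4, one_zpow]
      · rw [h4, h3.neg_one_zpow]
    · rcases Int.units_eq_one_or (u i) with h4 | h4
      · rw [h4, one_zpow]
      · rw [h4, (Int.not_odd_iff_even.1 h3).neg_one_zpow]
  rw [← h, Finset.prod_congr rfl fun i _ => h2 i, ← Finset.prod_filter]

variable {k W : Type} [Field k] [AddCommGroup W] [Module k W]
  (ρ : Representation k Gal(AlgebraicClosure K/K) W)

/-- `(-1)^{dim W^{G_F}} = w(E/F)` -/
def ParityOver (ε : ℤˣ) (B : Finset (HeightOneSpectrum (𝓞 K)))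
    (lam : HeightOneSpectrum (𝓞 K) → ℕ → ℤˣ) (F : IntermediateField K (AlgebraicClosure K))
    [NumberField F] : Prop :=
  FiniteDimensional k (fixedBy ρ F) ∧
    (-1) ^ Module.finrank k (fixedBy ρ F) = rootNumber ε B lam F

end

/-- **The `p`-parity conjecture without conditions on the reduction: fields with at most one small prime
suffice.**  Let `K` be a number field and `X` a natural number.  There are finitely many number fields
`F_j` between `K` and its algebraic closure such that `F_j` has at most one prime ideal of norm `≤ X`, and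
the primes of `K` of norm `≤ X` are unramified in `F_j`, and a set `J` of indices, such that for all finite
sets `B` of primes of `K`, all signs `ε`, all functions `λ_v` from the natural numbers to the signs, all
fields `k` of characteristic zero and all `k`-linear representations `W` of `G_K` with finite-dimensional
fixed spaces `W^{G_{F_j}}`

`(-1)^{dim W^{G_K}} w(K) = ∏_{j ∈ J} (-1)^{dim W^{G_{F_j}}} w(F_j)`,

where `w(F)` is the product of a factor `ε` for every archimedean place of `F` and a factor `λ_v(f(w))` for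
every prime `w` of `F` above an element `v` of `B`.

In particular let `E` be an elliptic curve over `K` (with any reduction) whose primes of bad reduction
have norm `≤ X`, `B` the set of these primes, `ε = -1`, `λ_v(f)` the local root number of `E` over the
unramified extension of degree `f` of `K_v`, and `W = W_p(E)`. Then `w(F) = w(E/F)` for `F = K` and the `F_j`,
and if the `p`-parity conjecture holds for `E` over all `F_j`, then it holds for `E` over `K`. -/
theorem result (K : Type) [Field K] [NumberField K] (X : ℕ) :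
    ∃ (N : ℕ) (F : Fin N → IntermediateField K (AlgebraicClosure K)) (_ : ∀ j, NumberField (F j))
      (J : Finset (Fin N)),
      (∀ j, AtMostOneSmallPrime X (F j)) ∧ (∀ j, UnramifiedUpTo X K (F j)) ∧
      ∀ (ε : ℤˣ) (B : Finset (HeightOneSpectrum (𝓞 K))) (lam : HeightOneSpectrum (𝓞 K) → ℕ → ℤˣ)
        (k W : Type) [Field k] [CharZero k] [AddCommGroup W] [Module k W]
        (ρ : Representation k Gal(AlgebraicClosure K/K) W),
        ((∀ j, FiniteDimensional k (fixedBy ρ (F j))) →
          FiniteDimensional k (Representation.invariants ρ) ∧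
            (-1) ^ Module.finrank k (Representation.invariants ρ) * rootNumber ε B lam K =
              ∏ j ∈ J, (-1) ^ Module.finrank k (fixedBy ρ (F j)) * rootNumber ε B lam (F j)) ∧
        ((∀ j, ParityOver ρ ε B lam (F j)) →
          FiniteDimensional k (Representation.invariants ρ) ∧
            (-1) ^ Module.finrank k (Representation.invariants ρ) = rootNumber ε B lam K) := by
  classical
  obtain ⟨N, Z, e, hrel, hZ⟩ := exists_rel K X
  refine ⟨N, fun j => Pool.Agent.N19.BR.img (Z j), fun j => Pool.Agent.N19.BR.img_nf (Z j),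
    Finset.univ.filter fun i => Odd (e i),
    fun j => atMostOne_equiv (Pool.Agent.N19.BR.imgEquiv (Z j)).toRingEquiv (hZ j).1,
    fun j => unram_equiv (Pool.Agent.N19.BR.imgEquiv (Z j)) (hZ j).2,
    fun ε B lam k W _ _ _ _ ρ => ?_⟩
  have key : (∀ j, FiniteDimensional k (fixedBy ρ (Pool.Agent.N19.BR.img (Z j)))) →
      FiniteDimensional k (Representation.invariants ρ) ∧
        (-1) ^ Module.finrank k (Representation.invariants ρ) * rootNumber ε B lam K =
          ∏ j ∈ Finset.univ.filter fun i => Odd (e i),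
            (-1) ^ Module.finrank k (fixedBy ρ (Pool.Agent.N19.BR.img (Z j))) *
              rootNumber ε B lam (Pool.Agent.N19.BR.img (Z j)) := by
    intro hfin
    have hrel' := Pool.Agent.N19.BR.isRel_img' hrel
    have hne : Nonempty (Fin N) := Pool.Agent.N19.BR.nonempty_of_rel one_ne_zero hrel'
    obtain ⟨h1, h2⟩ := Pool.Agent.N19.BR.inv_rel ρ (fun j => Pool.Agent.N19.BR.img (Z j)) hrel' hfin
    refine ⟨h1, ?_⟩
    have h3 := Pool.Agent.N19.BR.parity_prod e odd_one
      (fun j => (Module.finrank k (fixedBy ρ (Pool.Agent.N19.BR.img (Z j))) : ℤ)) h2.symm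
    have h4 := rootNumber_rel hrel' ε B lam
    rw [pow_one] at h4
    have h5 := odd_prod e _ h4
    rw [Finset.prod_mul_distrib, rootNumber_self, h5]
    congr 1
  refine ⟨key, fun h => ?_⟩
  obtain ⟨h1, h2⟩ := key fun j => (h j).1
  refine ⟨h1, ?_⟩
  have h3 : (-1 : ℤˣ) ^ Module.finrank k (Representation.invariants ρ) * rootNumber ε B lam K = 1 := by
    rw [h2]
    refine Finset.prod_eq_one fun j _ => ?_
    rw [(h j).2]
    exact Int.units_mul_self _
  rw [mul_eq_one_iff_eq_inv] at h3
  rw [h3, Int.units_inv_eq_self]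

end Pool.Agent.Results.MP_ddf76b_nt.ArbitraryReduction
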