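import Pool.Agent.H37.OP.Rel

/-!
# The `p`-parity conjecture: curves with at most one prime of genuinely bad reduction suffice

`E` is an arbitrary elliptic curve over a number field `K`, with any reduction. We find number fields
`F_j ⊇ K` over which the reduction of `E` is good or split multiplicative, or becomes so after a
`2`-extension of the completion, at all primes except at most one, such that the `p`-parity conjecture for
`E` over all `F_j` (and any prime number `p`) implies the `p`-parity conjecture for `E` over `K`.

*The Selmer ranks.*  For a prime number `p` let `W_p(E)` be the direct limit of the spaces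
`Hom(ℚ_p/ℤ_p, Sel_{p^∞}(E/F)) ⊗ ℚ` over all finite extensions `F` of `K` in the algebraic closure: a
representation of the absolute Galois group `G_K` over `k = ℚ_p`.  By Galois descent for Selmer groups the
space of the elements of `W_p(E)` fixed by `G_F` has dimension `rk_p E/F`.  The theorem is for
arbitrary representations of `G_K` in characteristic zero.

*The root numbers.*  The global root numbers `w(E/F)` respect the relations between permutation
representations (Artin formalism): `w(E/F)` is the root number of `E/K` twisted by the permutation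
representation of `G_K` on the embeddings of `F`, and this is multiplicative in the twist.  The theorem is
for arbitrary functions `w` with this property.

The proof.  `M` is a Galois extension of `K` that contains `L`, over which `E` has everywhere good or split
multiplicative reduction (constructed from the Legendre and Deuring normal forms), and that contains
elements of large degree over all residue fields of `K` at the bad and small primes. There is a relation
`∑ e_j [F_j] = m [K]` with `m` odd between permutation characters, such that the primes of `F_j`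
above the bad and small primes of `K` have `2`-groups as decomposition groups in `F_j M / F_j`, except at
most one, and `Gal(F_j M / F_j)` is `2`-hyperelementary (`Pool.Agent.H46.OP.one_place_tower`).
-/

set_option autoImplicit false

namespace Pool.Agent.Results.MP_ddf76b_nt.OneBadPrime

open NumberField IsDedekindDomain
open scoped Pointwise
open Pool.Agent.R433.MD (Ext)
open Pool.Agent.N19.BR (IsRel img img_nf imgEquiv)

/-- `E` has good or split multiplicative reduction at the prime `w` of `F`: it has a model with
coefficients in `𝓞 F` whose discriminant is prime to `w`, or whose reduction modulo `w` is the cubic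
`y² + c x y = x³` with `c ≠ 0` (a node with rational tangents). -/
def GoodOrSplit {F : Type} [Field F] [NumberField F] (E : WeierstrassCurve F)
    (w : HeightOneSpectrum (𝓞 F)) : Prop :=
  ∃ V : WeierstrassCurve (𝓞 F),
    (∃ C : WeierstrassCurve.VariableChange F, C • V.map (algebraMap (𝓞 F) F) = E) ∧
    (V.Δ ∉ w.asIdeal ∨ (V.a₁ ∉ w.asIdeal ∧ V.a₂ ∈ w.asIdeal ∧ V.a₃ ∈ w.asIdeal ∧
      V.a₄ ∈ w.asIdeal ∧ V.a₆ ∈ w.asIdeal))

/-- The group `G` is `2`-hyperelementary: it has a cyclic normal subgroup of odd order whose index is a
power of `2`. -/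
def TwoHyperelementary (G : Type) [Group G] : Prop :=
  ∃ C : Subgroup G, C.Normal ∧ IsCyclic C ∧ (Nat.card C).Coprime 2 ∧ ∃ k : ℕ, C.index = 2 ^ k

/-- The decomposition groups of the primes of `N` above `w` in the Galois extension `N / F` are
`2`-groups. -/
def TwoDecomposition (F N : Type) [Field F] [NumberField F] [Field N] [NumberField N] [Algebra F N]
    (w : HeightOneSpectrum (𝓞 F)) : Prop :=
  ∀ W : HeightOneSpectrum (𝓞 N), W.asIdeal.under (𝓞 F) = w.asIdeal →
    IsPGroup 2 (MulAction.stabilizer Gal(N/F) W.asIdeal)

/-- The number field `F ⊇ K` has at most one bad prime for the curve `E` over `K`, the bound `X` and the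
field `L ⊇ K`: there is a Galois extension `N` of `F` that contains `L` (over `K`) such that
* `Gal(N/F)` is `2`-hyperelementary;
* `E` has good or split multiplicative reduction at all primes of `N`;
* for all primes `w` of `F` except at most one, the norm of `w` is larger than `X`, and the decomposition
  groups above `w` in `N / F` are `2`-groups, or else `E` has good or split multiplicative reduction at the
  prime `w` of `F`, and the prime of `K` below `w` has norm larger than `X`. -/
def OneBad {K : Type} [Field K] [NumberField K] (E : WeierstrassCurve K) (X : ℕ)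
    (L : Type) [Field L] [Algebra K L] (F : Type) [Field F] [NumberField F] [Algebra K F] : Prop :=
  ∃ (N : Type) (_ : Field N) (_ : NumberField N) (_ : Algebra F N) (_ : IsGalois F N)
    (ι : L →+* N), (∀ x : K, ι (algebraMap K L x) = algebraMap F N (algebraMap K F x)) ∧
    TwoHyperelementary Gal(N/F) ∧
    (∀ W : HeightOneSpectrum (𝓞 N),
      GoodOrSplit ((E.map (algebraMap K F)).map (algebraMap F N)) W) ∧
    ∀ w w' : HeightOneSpectrum (𝓞 F),
      ¬ (X < Ideal.absNorm w.asIdeal ∧ (TwoDecomposition F N w ∨
        (GoodOrSplit (E.map (algebraMap K F)) w ∧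
          X < Ideal.absNorm (w.asIdeal.under (𝓞 K))))) →
      ¬ (X < Ideal.absNorm w'.asIdeal ∧ (TwoDecomposition F N w' ∨
        (GoodOrSplit (E.map (algebraMap K F)) w' ∧
          X < Ideal.absNorm (w'.asIdeal.under (𝓞 K))))) → w = w'

section
variable {K : Type} [Field K]

/-- The function `w` of the intermediate fields respects the relations between permutation characters:
if `∑ e_i #{embeddings of F_i over K fixed by σ} = 0` for all `σ` in `G_K`, then `∏ w(F_i)^{e_i} = 1`. The
global root numbers `w(E/F)` have this property. -/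
def RespectsRelations (w : IntermediateField K (AlgebraicClosure K) → ℤˣ) : Prop :=
  ∀ (n : ℕ) (F : Fin n → IntermediateField K (AlgebraicClosure K)) (e : Fin n → ℤ),
    (∀ i, FiniteDimensional K (F i)) →
    (∀ σ : Gal(AlgebraicClosure K/K),
      ∑ i, e i * (Nat.card {τ : F i →ₐ[K] AlgebraicClosure K // ∀ x, σ (τ x) = τ x} : ℤ) = 0) →
    ∏ i, w (F i) ^ e i = 1

variable {k W : Type} [Field k] [AddCommGroup W] [Module k W]
  (ρ : Representation k Gal(AlgebraicClosure K/K) W)

/-- The space `W^{G_F}` of the elements of `W` fixed by the absolute Galois group of `F`. -/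
noncomputable def fixedBy (F : IntermediateField K (AlgebraicClosure K)) : Submodule k W :=
  Representation.invariants (ρ.comp F.fixingSubgroup.subtype)

/-- `W^{G_F}` is finite-dimensional and `(-1)^{dim W^{G_F}} = w(F)`. -/
def ParityOver (w : IntermediateField K (AlgebraicClosure K) → ℤˣ)
    (F : IntermediateField K (AlgebraicClosure K)) : Prop :=
  FiniteDimensional k (fixedBy ρ F) ∧ (-1) ^ Module.finrank k (fixedBy ρ F) = w F

end

theorem odd_prod {ι : Type} [Fintype ι] [DecidableEq ι] (e : ι → ℤ) [DecidablePred fun i => Odd (e i)]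
    (u : ι → ℤˣ) {u₀ : ℤˣ}
    (h : ∏ i, u i ^ e i = u₀) : u₀ = ∏ i with Odd (e i), u i := by
  have h2 : ∀ i, u i ^ e i = if Odd (e i) then u i else 1 := by
    intro i
    split_ifs with h3
    · rcases Int.units_eq_one_or (u i) with h4 | h4
      · rw [h4, one_zpow]
      · rw [h4, h3.neg_one_zpow]
    · rcases Int.units_eq_one_or (u i) with h4 | h4
      · rw [h4, one_zpow]
      · rw [h4, (Int.not_odd_iff_even.1 h3).neg_one_zpow]
  rw [← h, Finset.prod_congr rfl fun i _ => h2 i, ← Finset.prod_filter]

theorem oneBad_of {K : Type} [Field K] [NumberField K] {E : WeierstrassCurve K} {X : ℕ}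
    {L : Type} [Field L] [Algebra K L] {F : Type} [Field F] [NumberField F] [Algebra K F]
    (h : Pool.Agent.H37.OP.Controlled E X 2 L F) : OneBad E X L F := by
  obtain ⟨N, i1, i2, i3, i4, ι, h1, h2, h3, h4⟩ := h
  refine ⟨N, i1, i2, i3, i4, ι, h1, h2, h3, ?_⟩
  have key : ∀ w : HeightOneSpectrum (𝓞 F),
      ¬ (X < Ideal.absNorm w.asIdeal ∧ (TwoDecomposition F N w ∨
        (GoodOrSplit (E.map (algebraMap K F)) w ∧
          X < Ideal.absNorm (w.asIdeal.under (𝓞 K))))) →
      Pool.Agent.H37.OP.Exceptional E X 2 F N w := by
    intro w hw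
    let v : HeightOneSpectrum (𝓞 K) :=
      ⟨w.asIdeal.under (𝓞 K), inferInstance, Ideal.IsIntegral.comap_ne_bot (𝓞 K) w.ne_bot⟩
    have hv : w.asIdeal.under (𝓞 K) = v.asIdeal := rfl
    have hle : Ideal.absNorm v.asIdeal ≤ Ideal.absNorm w.asIdeal := by
      have : Finite (𝓞 F ⧸ w.asIdeal) := by
        apply Ideal.finiteQuotientOfFreeOfNeBot
        exact w.ne_bot
      rw [Ideal.absNorm_apply, Ideal.absNorm_apply, Submodule.cardQuot_apply,
        Submodule.cardQuot_apply]
      exact Nat.card_le_card_of_injective
        (Ideal.quotientMap w.asIdeal (algebraMap (𝓞 K) (𝓞 F)) le_rfl)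
        (Ideal.quotientMap_injective' (f := algebraMap (𝓞 K) (𝓞 F)) le_rfl)
    have hgood : GoodOrSplit E v → GoodOrSplit (E.map (algebraMap K F)) w := fun h =>
      Pool.Agent.H58.OP.goodOrSplit_map E v w hv h
    by_cases hX : X < Ideal.absNorm w.asIdeal
    · have h5 : ¬ TwoDecomposition F N w ∧ ¬ (GoodOrSplit (E.map (algebraMap K F)) w ∧
          X < Ideal.absNorm (w.asIdeal.under (𝓞 K))) := by
        constructor
        · exact fun h6 => hw ⟨hX, Or.inl h6⟩
        · exact fun h6 => hw ⟨hX, Or.inr h6⟩
      refine ⟨⟨v, hv, ?_⟩, Or.inr ?_⟩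
      · by_contra hcon
        rw [not_or, not_not, not_le] at hcon
        exact h5.2 ⟨hgood hcon.1, hcon.2⟩
      · have h6 := h5.1
        unfold TwoDecomposition at h6
        push Not at h6
        exact h6
    · rw [not_lt] at hX
      exact ⟨⟨v, hv, Or.inr (hle.trans hX)⟩, Or.inl hX⟩
  intro w w' hw hw'
  exact h4 w w' (key w hw) (key w' hw')

/-- **The `p`-parity conjecture: fields with at most one bad prime suffice.**  Let `E` be an elliptic
curve over a number field `K`, `L` a finite extension of `K` and `X` a natural number.  There are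
finitely many number fields `F_j` between `K` and its algebraic closure with at most one bad prime in the
sense of `OneBad E X L F_j`, and a set `J` of indices, such that for all functions `w` that respect the
relations between permutation characters, all fields `k` of characteristic zero and all `k`-linear
representations `W` of `G_K` with finite-dimensional fixed spaces `W^{G_{F_j}}`

`(-1)^{dim W^{G_K}} w(K) = ∏_{j ∈ J} (-1)^{dim W^{G_{F_j}}} w(F_j)`,

and if `(-1)^{dim W^{G_{F_j}}} = w(F_j)` for all `j` then `(-1)^{dim W^{G_K}} = w(K)`.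

In particular let `p` be a prime number, `w(F) = w(E/F)` and `W = W_p(E)`. If the `p`-parity conjecture
holds for `E` over all `F_j`, then it holds for `E` over `K`. -/
theorem result (K : Type) [Field K] [NumberField K] (E : WeierstrassCurve K) (hE : E.IsElliptic)
    (L : Type) [Field L] [NumberField L] [Algebra K L] (X : ℕ) :
    ∃ (N : ℕ) (F : Fin N → IntermediateField K (AlgebraicClosure K)) (_ : ∀ j, NumberField (F j))
      (J : Finset (Fin N)),
      (∀ j, OneBad E X L (F j)) ∧
      ∀ (w : IntermediateField K (AlgebraicClosure K) → ℤˣ), RespectsRelations w →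
      ∀ (k W : Type) [Field k] [CharZero k] [AddCommGroup W] [Module k W]
        (ρ : Representation k Gal(AlgebraicClosure K/K) W),
        ((∀ j, FiniteDimensional k (fixedBy ρ (F j))) →
          FiniteDimensional k (fixedBy ρ ⊥) ∧
            (-1) ^ Module.finrank k (fixedBy ρ ⊥) * w ⊥ =
              ∏ j ∈ J, (-1) ^ Module.finrank k (fixedBy ρ (F j)) * w (F j)) ∧
        ((∀ j, ParityOver ρ w (F j)) → ParityOver ρ w ⊥) := by
  classical
  obtain ⟨N, Z, e, m, hm0, hmp, hrel, hZ⟩ :=
    Pool.Agent.H37.OP.exists_controlled Nat.prime_two K E X L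
  have hodd : Odd m := Nat.not_even_iff_odd.1 fun h => hmp (even_iff_two_dvd.1 h)
  refine ⟨N, fun j => img (Z j), fun j => img_nf (Z j), Finset.univ.filter fun i => Odd (e i),
    fun j => oneBad_of ((hZ j).equiv (imgEquiv (Z j))), fun w hw k W _ _ _ _ ρ => ?_⟩
  have hrel' := Pool.Agent.N19.BR.isRel_img' hrel
  -- the root numbers
  have hroot : ∏ j, w (img (Z j)) ^ e j = w ⊥ := by
    have h1 := hw (N + 1) (Fin.cons ⊥ fun j => img (Z j)) (Fin.cons (-(m : ℤ)) e) (by
      intro i
      refine Fin.cases ?_ (fun j => ?_) i
      · change FiniteDimensional K (⊥ : IntermediateField K (AlgebraicClosure K))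
        infer_instance
      · change FiniteDimensional K (img (Z j))
        exact Module.Finite.equiv (imgEquiv (Z j)).toLinearEquiv) (by
      intro σ
      rw [Fin.sum_univ_succ]
      have h2 := hrel' (AlgebraicClosure K) σ
      have h3 : Nat.card {τ : (⊥ : IntermediateField K (AlgebraicClosure K)) →ₐ[K]
          AlgebraicClosure K // ∀ x, σ (τ x) = τ x} = 1 := by
        rw [Nat.card_eq_one_iff_exists]
        refine ⟨⟨IntermediateField.val _, fun x => ?_⟩, fun τ => Subtype.ext ?_⟩
        · obtain ⟨y, hy⟩ := IntermediateField.mem_bot.1 x.2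
          change σ (x : AlgebraicClosure K) = x
          rw [← hy]
          exact σ.commutes y
        · have hsub : Subsingleton ((⊥ : IntermediateField K (AlgebraicClosure K)) →ₐ[K]
              AlgebraicClosure K) := by
            refine ⟨fun a b => ?_⟩
            ext x
            obtain ⟨y, hy⟩ := IntermediateField.mem_bot.1 x.2
            have hx : x = algebraMap K (⊥ : IntermediateField K (AlgebraicClosure K)) y :=
              Subtype.ext hy.symm
            rw [hx, a.commutes, b.commutes]
          exact Subsingleton.elim _ _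
      have h4 : ∀ j : Fin N, (Fin.cons (-(m : ℤ)) e : Fin (N + 1) → ℤ) j.succ = e j := fun j => rfl
      change -(m : ℤ) * (Nat.card {τ : (⊥ : IntermediateField K (AlgebraicClosure K)) →ₐ[K]
          AlgebraicClosure K // ∀ x, σ (τ x) = τ x} : ℤ) + ∑ j : Fin N, e j *
            (Nat.card {τ : img (Z j) →ₐ[K] AlgebraicClosure K // ∀ x, σ (τ x) = τ x} : ℤ) = 0
      rw [h3]
      change -(m : ℤ) * ((1 : ℕ) : ℤ) + ∑ j : Fin N, e j *
            (Pool.Agent.N19.BR.cnt (img (Z j)) σ : ℤ) = 0
      rw [h2]
      simp)
    rw [Fin.prod_univ_succ] at h1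
    change w ⊥ ^ (-(m : ℤ)) * ∏ j, w (img (Z j)) ^ e j = 1 at h1
    have h5 : w ⊥ ^ (-(m : ℤ)) = w ⊥ := by
      rcases Int.units_eq_one_or (w ⊥) with h6 | h6
      · rw [h6, one_zpow]
      · rw [h6]
        have h7 : Odd (-(m : ℤ)) := (by exact_mod_cast hodd : Odd (m : ℤ)).neg
        exact h7.neg_one_zpow
    rw [h5, mul_eq_one_iff_eq_inv] at h1
    rw [h1, Int.units_inv_eq_self]
  have key : (∀ j, FiniteDimensional k (fixedBy ρ (img (Z j)))) →
      FiniteDimensional k (fixedBy ρ ⊥) ∧
        (-1) ^ Module.finrank k (fixedBy ρ ⊥) * w ⊥ =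
          ∏ j ∈ Finset.univ.filter fun i => Odd (e i),
            (-1) ^ Module.finrank k (fixedBy ρ (img (Z j))) * w (img (Z j)) := by
    intro hfin
    have hne : Nonempty (Fin N) := Pool.Agent.N19.BR.nonempty_of_rel hm0 hrel'
    obtain ⟨h1, h2⟩ := Pool.Agent.N19.BR.inv_rel ρ (fun j => img (Z j)) hrel' hfin
    have hbot : fixedBy ρ ⊥ = Representation.invariants ρ := Pool.Agent.N19.BR.inv_bot ρ
    rw [hbot]
    refine ⟨h1, ?_⟩
    have h3 := Pool.Agent.N19.BR.parity_prod e hodd
      (fun j => (Module.finrank k (fixedBy ρ (img (Z j))) : ℤ)) h2.symm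
    have h5 := odd_prod e _ hroot
    rw [Finset.prod_mul_distrib, h5]
    congr 1
  refine ⟨key, fun h => ?_⟩
  obtain ⟨h1, h2⟩ := key fun j => (h j).1
  refine ⟨h1, ?_⟩
  have h3 : (-1 : ℤˣ) ^ Module.finrank k (fixedBy ρ ⊥) * w ⊥ = 1 := by
    rw [h2]
    refine Finset.prod_eq_one fun j _ => ?_
    rw [(h j).2]
    exact Int.units_mul_self _
  rw [mul_eq_one_iff_eq_inv] at h3
  rw [h3, Int.units_inv_eq_self]

end Pool.Agent.Results.MP_ddf76b_nt.OneBadPrime
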