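import Pool.Agent.H93.Lib.R_pool_sql_team_seeded_63374d34.N19.BR.ParSel
import Pool.Agent.H46.SP.Main

/-!
# The `p`-parity conjecture for semistable elliptic curves: number fields with at most one small prime
and `2`-hyperelementary Galois action suffice

`K` is a number field, `X` and `M` natural numbers (`M` enters through the finite Galois extension
`L / K`, for example the field of the points of order `M` of a curve, or a composite of such fields).

For an elliptic curve `E` over `K` and a prime number `p` let `W_p(E)` be the direct limit of the spaces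
`Hom(ℚ_p/ℤ_p, Sel_{p^∞}(E/F)) ⊗ ℚ` over all finite extensions `F` of `K` in the algebraic closure: a
representation of the absolute Galois group `G_K` over `k = ℚ_p`.  By Galois descent for Selmer groups the
space of the elements of `W_p(E)` fixed by `G_F` has dimension `rk_p E/F`.  Likewise `E(K̄) ⊗ ℚ` gives the
ranks of the groups `E(F)`.  The theorem below is for arbitrary representations.

The proof.  There is a relation `∑ e_j [F_j] = m [K]`, `m` odd, between the permutation characters of
finite extensions `F_j` of `K` for which `Gal(L F_j / F_j)` is `2`-hyperelementary and the local degrees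
are divisible (a library result), and over each `F_j` a relation `∑ d_i [F_ji] = [F_j]` between fields with
at most one prime ideal of norm `≤ X` (`Pool.Agent.H46.SP`, used before for the Birch and Swinnerton-Dyer
conjecture).  The composite relation has both properties, and its coefficient `m` is odd.  It gives
relations for the dimensions of the fixed spaces, for the numbers of archimedean places and, ramified
primes included, for the numbers of the primes of split multiplicative reduction.
-/

set_option autoImplicit false

namespace Pool.Agent.Results.MP_ddf76b_nt.OneSmallPrime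

open NumberField IsDedekindDomain
open Pool.Agent.R433.MD (Ext)
open Pool.Agent.N19.BR (IsRel)
open Pool.Agent.N19.BR.Def Pool.Agent.N19.BR.FDef

/-- The number field `F` has at most one prime ideal of norm `≤ X`. -/
def AtMostOneSmallPrime (X : ℕ) (F : Type) [Field F] [NumberField F] : Prop :=
  ∀ w w' : HeightOneSpectrum (𝓞 F),
    Ideal.absNorm w.asIdeal ≤ X → Ideal.absNorm w'.asIdeal ≤ X → w = w'

theorem atMostOne_equiv {X : ℕ} {F F' : Type} [Field F] [NumberField F] [Field F'] [NumberField F']
    (e : F ≃+* F') (h : AtMostOneSmallPrime X F) : AtMostOneSmallPrime X F' := by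
  intro w w' hw hw'
  let f : 𝓞 F' ≃+* 𝓞 F := RingOfIntegers.mapRingEquiv e.symm
  have key : ∀ u : HeightOneSpectrum (𝓞 F'),
      Ideal.absNorm (HeightOneSpectrum.equivOfRingEquiv f u).asIdeal = Ideal.absNorm u.asIdeal := by
    intro u
    rw [Ideal.absNorm_apply, Ideal.absNorm_apply, Submodule.cardQuot_apply,
      Submodule.cardQuot_apply]
    refine Nat.card_congr (Ideal.quotientEquiv _ _ f.symm ?_).toEquiv
    exact (Ideal.map_comap_eq_self_of_equiv f.symm u.asIdeal).symm
  exact (HeightOneSpectrum.equivOfRingEquiv f).injective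
    (h _ _ (by rw [key]; exact hw) (by rw [key]; exact hw'))

/-- the relation between fields with at most one small prime -/
theorem exists_rel (K : Type) [Field K] [NumberField K] (X : ℕ) :
    ∃ (ι : Type) (_ : Fintype ι) (Y : ι → Ext K) (d : ι → ℤ), IsRel K Y d 1 ∧
      ∀ i, AtMostOneSmallPrime X (Y i).F := by
  obtain ⟨L, _, _, _, hG, -, S, n, hS, hsum⟩ := Pool.Agent.H46.SP.exists_relation K X
  refine ⟨{F // F ∈ S}, inferInstance, fun F => ⟨F.1⟩, fun F => n F.1,
    Pool.Agent.N19.BR.isRel_of_fx S n 1 (by simpa using hsum), fun F w w' hw hw' => ?_⟩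
  exact Pool.Agent.H46.SP.Fam.unique (hS F.1 F.2) hw hw'

/-- the class is inherited by extensions -/
theorem two_restrict {K : Type} [Field K] [NumberField K] {L : Type} [Field L] [Algebra K L]
    {S : Set (HeightOneSpectrum (𝓞 K))} {n : ℕ} (Z : Ext K) (Y : Ext Z.F)
    (h : TwoClass L S n Z) : TwoClass L S n (Z.restrict Y) := by
  obtain ⟨h1, h2⟩ := h
  refine ⟨?_, ?_⟩
  · exact Pool.Agent.N19.BR.hyperOver_of Nat.prime_two
      (Pool.Agent.N19.BR.cyc_restrict Z Y (Pool.Agent.N19.BR.cyc_of_hyperOver Nat.prime_two h1))
  · have h4 := Pool.Agent.N19.BR.loc_restrict (S := S) (a := n) Z Y h2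
      (Pool.Agent.N19.BR.loc_one _ Y.F)
    rw [mul_one] at h4
    exact h4

/-- the composite relation -/
theorem exists_list (K : Type) [Field K] [NumberField K] (L : Type) [Field L] [NumberField L]
    [Algebra K L] [IsGalois K L] {S : Set (HeightOneSpectrum (𝓞 K))} (hS : S.Finite) {n : ℕ}
    (hn : Odd n) (X : ℕ) : ∃ (N : ℕ) (Z : Fin N → Ext K) (e : Fin N → ℤ) (m : ℕ), Odd m ∧
      IsRel K Z e m ∧ ∀ i, TwoClass L S n (Z i) ∧ AtMostOneSmallPrime X (Z i).F := by
  obtain ⟨N, Z, e, m, hm, hrel, hZ⟩ := Pool.Agent.N19.BR.list_two K L hS hn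
  choose κ hκ Y d hY hX using fun j => exists_rel (Z j).F X
  have h1 := hrel.comp Y d (fun _ => 1) hY
  rw [Finset.prod_const_one, mul_one] at h1
  let f : Fin (Fintype.card (Σ j, κ j)) ≃ (Σ j, κ j) := (Fintype.equivFin _).symm
  refine ⟨_, fun i => (Z (f i).1).restrict (Y (f i).1 (f i).2), _, m, hm, h1.reindex f, fun i => ?_⟩
  exact ⟨two_restrict _ _ (hZ _), hX _ _⟩

/-- **The `p`-parity conjecture: fields with at most one small prime suffice.**  Let `L/K` be a finite
Galois extension of number fields, `S` a finite set of primes of `K`, `n` an odd positive integer and `X`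
a natural number.  There are finitely many number fields `F_j` between `K` and its algebraic closure such
that

* `F_j` has at most one prime ideal of norm `≤ X`;
* the Galois groups of `L F_j / F_j` are `2`-hyperelementary, and `n` divides the local degrees of all
  `F_j / K` at the primes above `S`;

and a set `J` of indices, such that for ALL semistable elliptic curves `E` over `K`, all fields `k` of
characteristic zero and all `k`-linear representations `W` of `G_K` with finite-dimensional fixed spaces
`W^{G_{F_j}}`

`(-1)^{dim W^{G_K}} w(E / K) = ∏_{j ∈ J} (-1)^{dim W^{G_{F_j}}} w(E / F_j)`;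

in particular (`k = ℚ_p`, `W = W_p(E)`), if the `p`-parity conjecture holds for `E` over all `F_j`, then it
holds for `E` over `K`. -/
theorem result (K : Type) [Field K] [NumberField K] (L : Type) [Field L] [NumberField L]
    [Algebra K L] [IsGalois K L] (S : Set (HeightOneSpectrum (𝓞 K))) (hS : S.Finite) (n : ℕ)
    (hn : Odd n) (X : ℕ) :
    ∃ (N : ℕ) (F : Fin N → IntermediateField K (AlgebraicClosure K)) (_ : ∀ j, NumberField (F j))
      (J : Finset (Fin N)),
      (∀ j, AtMostOneSmallPrime X (F j)) ∧ (∀ j, TwoClass L S n (⟨F j⟩ : Ext K)) ∧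
      ∀ E : WeierstrassCurve K, E.IsElliptic → Semistable E →
        ∀ (k W : Type) [Field k] [CharZero k] [AddCommGroup W] [Module k W]
          (ρ : Representation k Gal(AlgebraicClosure K/K) W), FixedParityFormula ρ E F J ∧
            ((∀ j, FixedParity ρ E (F j)) → InvariantParity ρ E) := by
  classical
  obtain ⟨N, Z, e, m, hm, hrel, hZ⟩ := exists_list K L hS hn X
  refine ⟨N, fun j => Pool.Agent.N19.BR.img (Z j), fun j => Pool.Agent.N19.BR.img_nf (Z j),
    Finset.univ.filter fun i => Odd (e i),
    fun j => atMostOne_equiv (Pool.Agent.N19.BR.imgEquiv (Z j)).toRingEquiv (hZ j).2,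
    fun j => Pool.Agent.N19.BR.img_two (Z j) (hZ j).1,
    fun E hE hs k W _ _ _ _ ρ => ?_⟩
  have h := Pool.Agent.N19.BR.parity_fixed ρ (fun j => Pool.Agent.N19.BR.img (Z j)) hm
    (Pool.Agent.N19.BR.isRel_img' hrel) hE hs
  have h' : FixedParityFormula ρ E (fun j => Pool.Agent.N19.BR.img (Z j))
      (Finset.univ.filter fun i => Odd (e i)) := by
    convert h
  exact ⟨h', Pool.Agent.N19.BR.invariant_parity ρ h' hE⟩

end Pool.Agent.Results.MP_ddf76b_nt.OneSmallPrime
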