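import Pool.Agent.H93.Lib.R_pool_sql_team_seeded_63374d34.N19.BR.ParSel
import Pool.Agent.H26.PP.Prim
import Pool.Agent.H26.PP.Trans

/-!
# The `p`-parity conjecture: primitive fields in which the bad places split completely suffice

`E` is an elliptic curve over a number field `K` (more generally an abelian variety), with any reduction.

*The Selmer ranks.*  For a prime number `p` let `W_p(E)` be the direct limit of the spaces
`Hom(ℚ_p/ℤ_p, Sel_{p^∞}(E/F)) ⊗ ℚ` over all finite extensions `F` of `K` in the algebraic closure: a
representation of the absolute Galois group `G_K` over `k = ℚ_p`.  By Galois descent for Selmer groups the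
space of the elements of `W_p(E)` fixed by `G_F` has dimension `rk_p E/F`.  The theorem is for
arbitrary representations.

*The root numbers.*  `w(E/F)` is the product of the local root numbers of `E` over the completions of
`F`: it is `-1` for the archimedean places, and `1` for the primes of good reduction.  The local root number
depends only on the curve over the completion `F_w`, so it is the same for `v` and for all primes `w` of
`F` above `v` if `v` splits completely in `F`.  The theorem is for all families of signs with this
property (`LocalSigns`).  No condition on the reduction or on the ramification is needed.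

The proof.  For an odd number `r` and a permutation `g` of `2r` points let `s_k(g)` be the number of the
`g`-invariant sets of `k` points and `p(g)` the number of the `g`-invariant partitions into two blocks
of `r` points. Then `1 = p(g) + s_1(g) - s_2(g) + ⋯ - s_{r-1}(g)`, and the stabilizers of the `k`-sets and
of these partitions are maximal subgroups of the symmetric group.  Every number field has extensions with
group `S_{2r}` in which given primes and all real places split completely (`Pool.Agent.H67.Primitive`, used
before for conjectures on `L`-functions).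
-/

set_option autoImplicit false

namespace Pool.Agent.Results.MP_ddf76b_nt.PrimitiveFields

open NumberField IsDedekindDomain
open Pool.Agent.R433.MD (Ext)
open Pool.Agent.N19.BR (IsRel)
open Pool.Agent.N19.BR.MDef (fixedBy)
open Pool.Agent.H67.Primitive

section
variable {K : Type} [Field K] [NumberField K]

/-- `L` is a Galois extension of `K` with group `S_{2r}`; `F 0, …, F (r - 1)` are different intermediate
fields, `[F 0 : K] = (2r choose r) / 2`, `[F j : K] = (2r choose j)` for `j ≥ 1`, and all of them are special:
there are no fields strictly between `K` and `F j`, and the primes in `S` and the real places of `K` split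
completely in `F j`. -/
structure SymmetricFamily (r : ℕ) (S : Finset (HeightOneSpectrum (𝓞 K)))
    (L : IntermediateField K (AlgebraicClosure K))
    (F : Fin r → IntermediateField K (AlgebraicClosure K)) [∀ j, NumberField (F j)] : Prop where
  isGalois : IsGalois K L
  group : Nonempty (Gal(L/K) ≃* Equiv.Perm (Fin (2 * r)))
  le : ∀ j, F j ≤ L
  different : Function.Injective F
  degree_zero : ∀ j : Fin r, (j : ℕ) = 0 → 2 * Module.finrank K (F j) = (2 * r).choose r
  degree_pos : ∀ j : Fin r, (j : ℕ) ≠ 0 → Module.finrank K (F j) = (2 * r).choose j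
  special : ∀ j, SpecialExtension r S (F j)

/-- Signs `sign F w` for the primes `w` of the number fields `F ⊇ K`. They are the same for `v` and for the
primes of `F` above `v` if `v ∈ B` splits completely in `F`. The example: the local root numbers of an elliptic
curve `E` over `K` with good reduction outside `B`; if `v` splits completely, then `F_w = K_v`. -/
structure LocalSigns (K : Type) [Field K] [NumberField K] (B : Finset (HeightOneSpectrum (𝓞 K))) where
  sign : ∀ (F : Type) [Field F] [NumberField F] [Algebra K F], HeightOneSpectrum (𝓞 F) → ℤˣ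
  split : ∀ (F : Type) [Field F] [NumberField F] [Algebra K F] (v : HeightOneSpectrum (𝓞 K)),
    v ∈ B → SplitsCompletely v F → ∀ w : HeightOneSpectrum (𝓞 F),
      w.asIdeal.under (𝓞 K) = v.asIdeal → sign F w = sign K v

/-- `w(F)`: the product of a factor `ε` for every archimedean place of `F` and the signs of the primes of
`F` above the elements of `B`. For `ε = -1` and the local root numbers of an elliptic curve `E` with good
reduction outside `B` this is the root number `w(E/F)`, for all `F`. -/
noncomputable def rootNumber (ε : ℤˣ) {B : Finset (HeightOneSpectrum (𝓞 K))} (lam : LocalSigns K B)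
    (F : Type) [Field F] [NumberField F] [Algebra K F] : ℤˣ :=
  ε ^ Nat.card (InfinitePlace F) *
    ∏ v ∈ B, ∏ᶠ w : {w : HeightOneSpectrum (𝓞 F) // w.asIdeal.under (𝓞 K) = v.asIdeal},
      lam.sign F w.1

omit [NumberField K] in
theorem under_self_eq (u : HeightOneSpectrum (𝓞 K)) : u.asIdeal.under (𝓞 K) = u.asIdeal := by
  ext x
  rw [Ideal.mem_comap]
  have h1 : algebraMap (𝓞 K) (𝓞 K) x = x := RingOfIntegers.ext rfl
  rw [h1]

theorem splits_self (v : HeightOneSpectrum (𝓞 K)) : SplitsCompletely v K := by
  unfold SplitsCompletely
  rw [Module.finrank_self, Nat.card_eq_one_iff_exists]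
  refine ⟨⟨v, under_self_eq v⟩, fun u => Subtype.ext (HeightOneSpectrum.ext ?_)⟩
  exact (under_self_eq u.1).symm.trans u.2

theorem prod_split {B : Finset (HeightOneSpectrum (𝓞 K))} (lam : LocalSigns K B) (F : Type)
    [Field F] [NumberField F] [Algebra K F] {v : HeightOneSpectrum (𝓞 K)} (hv : v ∈ B)
    (h : SplitsCompletely v F) :
    ∏ᶠ w : {w : HeightOneSpectrum (𝓞 F) // w.asIdeal.under (𝓞 K) = v.asIdeal}, lam.sign F w.1 =
      lam.sign K v ^ Module.finrank K F := by
  classical
  have hfd : FiniteDimensional K F := by
    have : IsScalarTower ℚ K F := inferInstance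
    exact FiniteDimensional.right ℚ K F
  have hne : Nat.card {w : HeightOneSpectrum (𝓞 F) // w.asIdeal.under (𝓞 K) = v.asIdeal} ≠ 0 := by
    rw [h]
    exact Module.finrank_pos.ne'
  have hfin := Nat.finite_of_card_ne_zero hne
  have hft := Fintype.ofFinite {w : HeightOneSpectrum (𝓞 F) // w.asIdeal.under (𝓞 K) = v.asIdeal}
  rw [finprod_eq_prod_of_fintype, Finset.prod_congr rfl fun w _ => lam.split F v hv h w.1 w.2,
    Finset.prod_const, Finset.card_univ, ← Nat.card_eq_fintype_card, h]

/-- the root number over fields in which the places split -/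
theorem rootNumber_split (ε : ℤˣ) {B : Finset (HeightOneSpectrum (𝓞 K))} (lam : LocalSigns K B)
    (F : Type) [Field F] [NumberField F] [Algebra K F] (hB : ∀ v ∈ B, SplitsCompletely v F)
    (hR : RealPlacesSplit K F) :
    rootNumber ε lam F = rootNumber ε lam K ^ Module.finrank K F := by
  unfold rootNumber
  rw [Finset.prod_congr rfl fun v hv => prod_split lam F hv (hB v hv),
    Finset.prod_congr rfl fun v hv => prod_split lam K hv (splits_self v),
    Pool.Agent.H26.PP.card_places hR, mul_pow, ← pow_mul, Finset.prod_pow, Module.finrank_self]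
  simp_rw [pow_one]
  rw [mul_comm (Module.finrank K F)]

theorem isRel_of_primitive {L : Type} [Field L] [NumberField L] [Algebra K L] {r : ℕ}
    {S : Finset (HeightOneSpectrum (𝓞 K))} {F : Fin r → IntermediateField K L}
    (h : PrimitiveRelation r S F) : IsRel K (fun j => (⟨F j⟩ : Ext K)) exponent 1 := by
  intro Ω _ _ _ σ
  have hG := h.isGalois
  let j : L →ₐ[K] Ω := IsAlgClosed.lift
  let _ : Algebra L Ω := j.toRingHom.toAlgebra
  have _ : IsScalarTower K L Ω := IsScalarTower.of_algebraMap_eq fun x => (j.commutes x).symm
  have h1 := h.relation (σ.restrictNormal L)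
  rw [Nat.cast_one, ← h1]
  refine Finset.sum_congr rfl fun i _ => ?_
  rw [Pool.Agent.N19.BR.cnt_normal (L := L) (F i) ⟨(F i).val⟩ σ]
  rfl

/-- the family in the algebraic closure -/
theorem exists_family {r : ℕ} (hr : Odd r) (h3 : 3 ≤ r) (S : Finset (HeightOneSpectrum (𝓞 K))) :
    ∃ (L : IntermediateField K (AlgebraicClosure K))
      (F : Fin r → IntermediateField K (AlgebraicClosure K)) (_ : ∀ j, NumberField (F j)),
      SymmetricFamily r S L F ∧ IsRel K (fun j => (⟨F j⟩ : Ext K)) exponent 1 := by
  obtain ⟨L, _, _, _, F, hF⟩ := Pool.Agent.H26.PP.exists_primitive_relation K hr h3 S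
  have hG := hF.isGalois
  have hfd : FiniteDimensional K L := by
    have : IsScalarTower ℚ K L := inferInstance
    exact FiniteDimensional.right ℚ K L
  let ι : L →ₐ[K] AlgebraicClosure K := IsAlgClosed.lift
  let eL : L ≃ₐ[K] ι.fieldRange := AlgEquiv.ofInjectiveField ι
  let e : ∀ j, F j ≃ₐ[K] (F j).map ι := fun j => IntermediateField.equivMap (F j) ι
  have hnf : ∀ j, NumberField ((F j).map ι) := fun j => by
    have : FiniteDimensional K ((F j).map ι) := Module.Finite.equiv (e j).toLinearEquiv
    exact NumberField.of_module_finite K _
  refine ⟨ι.fieldRange, fun j => (F j).map ι, hnf, ⟨IsGalois.of_algEquiv eL, ?_, fun j => ?_, ?_,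
    fun j hj => ?_, fun j hj => ?_, fun j => ?_⟩, ?_⟩
  · obtain ⟨g⟩ := hF.group
    exact ⟨(AlgEquiv.autCongr eL).symm.trans g⟩
  · rintro _ ⟨x, -, rfl⟩
    exact ⟨x, rfl⟩
  · exact (IntermediateField.map_injective ι).comp hF.different
  · rw [← (e j).toLinearEquiv.finrank_eq]
    exact hF.degree_zero j hj
  · rw [← (e j).toLinearEquiv.finrank_eq]
    exact hF.degree_pos j hj
  · exact Pool.Agent.H26.PP.special_congr (e j) (hF.special j)
  · intro Ω _ _ _ σ
    rw [← isRel_of_primitive hF Ω σ]
    exact Finset.sum_congr rfl fun j _ => by rw [Pool.Agent.N19.BR.cnt_copy (e j) σ]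

variable {k W : Type} [Field k] [AddCommGroup W] [Module k W]
  (ρ : Representation k Gal(AlgebraicClosure K/K) W)

/-- `(-1)^{dim W^{G_F}} = w(F)` -/
def ParityOver (ε : ℤˣ) {B : Finset (HeightOneSpectrum (𝓞 K))} (lam : LocalSigns K B)
    (F : IntermediateField K (AlgebraicClosure K)) [NumberField F] : Prop :=
  FiniteDimensional k (fixedBy ρ F) ∧
    (-1) ^ Module.finrank k (fixedBy ρ F) = rootNumber ε lam F

end

theorem unit_zpow_odd (u : ℤˣ) {n : ℤ} (hn : Odd n) : u ^ n = u := by
  rcases Int.units_eq_one_or u with h | h
  · rw [h, one_zpow]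
  · rw [h, hn.neg_one_zpow]

theorem odd_exponent {r : ℕ} (j : Fin r) : Odd (exponent j) := by
  unfold exponent
  split_ifs
  · exact odd_one
  · exact (odd_neg_one).pow

/-- **The `p`-parity conjecture: primitive fields in which the bad places split completely suffice.**  Let
`K` be a number field, `S` a finite set of primes of `K` and `r ≥ 3` odd.  There are a Galois extension
`L` of `K` with group `S_{2r}` and `r` fields `F_j` between `K` and `L` without fields strictly between `K` and
`F_j`, of degrees `(2r choose r) / 2` and `(2r choose j)` for `1 ≤ j < r` (for `r = 3`: `10`, `6`, `15`), in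
which the primes in `S` and the real places split completely, such that:

(1) for all representations `W` of `G_K` over a field `k` of characteristic zero with finite-dimensional
spaces `W^{G_{F_j}}`, `dim W^{G_K} = ∑_j exponent j * dim W^{G_{F_j}}` (exponents `1, 1, -1, 1, …, -1`);

(2) for all signs `ε` and local signs at the primes in a set `B ⊆ S`, `w(F_j) = w(K)^{[F_j : K]}`;

(3) `(-1)^{dim W^{G_K}} w(K) = ∏_j (-1)^{dim W^{G_{F_j}}} w(F_j)`;

(4) if `(-1)^{dim W^{G_{F_j}}} = w(F_j)` for all `j`, then `(-1)^{dim W^{G_K}} = w(K)`.

In particular let `E` be an elliptic curve over `K` (with any reduction) with good reduction outside `S`, and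
`W = W_p(E)`.  Then the `p`-parity conjecture for `E` over `F_j` says that `rk_p E/F_j` is even if
`[F_j : K]` is even, and that `(-1)^{rk_p E/F_j} = w(E/K)` if `[F_j : K]` is odd; and if it holds over all
`F_j`, then it holds over `K`. -/
theorem result (K : Type) [Field K] [NumberField K] (S : Finset (HeightOneSpectrum (𝓞 K))) (r : ℕ)
    (hr : Odd r) (h3 : 3 ≤ r) :
    ∃ (L : IntermediateField K (AlgebraicClosure K))
      (F : Fin r → IntermediateField K (AlgebraicClosure K)) (_ : ∀ j, NumberField (F j)),
      SymmetricFamily r S L F ∧
      -- (1) the ranks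
      (∀ (k W : Type) [Field k] [CharZero k] [AddCommGroup W] [Module k W]
        (ρ : Representation k Gal(AlgebraicClosure K/K) W),
        (∀ j, FiniteDimensional k (fixedBy ρ (F j))) →
          FiniteDimensional k (Representation.invariants ρ) ∧
            (Module.finrank k (Representation.invariants ρ) : ℤ) =
              ∑ j, exponent j * (Module.finrank k (fixedBy ρ (F j)) : ℤ)) ∧
      ∀ (ε : ℤˣ) (B : Finset (HeightOneSpectrum (𝓞 K))) (_ : B ⊆ S) (lam : LocalSigns K B),
        -- (2) the root numbers
        (∀ j, rootNumber ε lam (F j) = rootNumber ε lam K ^ Module.finrank K (F j)) ∧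
        ∀ (k W : Type) [Field k] [CharZero k] [AddCommGroup W] [Module k W]
          (ρ : Representation k Gal(AlgebraicClosure K/K) W),
          -- (3) the formula
          ((∀ j, FiniteDimensional k (fixedBy ρ (F j))) →
            (-1) ^ Module.finrank k (Representation.invariants ρ) * rootNumber ε lam K =
              ∏ j, (-1) ^ Module.finrank k (fixedBy ρ (F j)) * rootNumber ε lam (F j)) ∧
          -- (4) the reduction
          ((∀ j, ParityOver ρ ε lam (F j)) →
            FiniteDimensional k (Representation.invariants ρ) ∧
              (-1) ^ Module.finrank k (Representation.invariants ρ) = rootNumber ε lam K) := by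
  classical
  obtain ⟨L, F, hnf, hfam, hrel⟩ := exists_family (K := K) hr h3 S
  have hne : Nonempty (Fin r) := ⟨⟨0, by omega⟩⟩
  have hrank : ∀ (k W : Type) [Field k] [CharZero k] [AddCommGroup W] [Module k W]
        (ρ : Representation k Gal(AlgebraicClosure K/K) W),
        (∀ j, FiniteDimensional k (fixedBy ρ (F j))) →
          FiniteDimensional k (Representation.invariants ρ) ∧
            (Module.finrank k (Representation.invariants ρ) : ℤ) =
              ∑ j, exponent j * (Module.finrank k (fixedBy ρ (F j)) : ℤ) := by
    intro k W _ _ _ _ ρ hfin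
    obtain ⟨h1, h2⟩ := Pool.Agent.N19.BR.inv_rel ρ F hrel hfin
    refine ⟨h1, ?_⟩
    rw [Nat.cast_one, one_mul] at h2
    exact h2
  have hdeg : ∑ j, exponent j * (Module.finrank K (F j) : ℤ) = 1 := by
    have h1 := Pool.Agent.N19.BR.rel_degree hrel
    rw [Nat.cast_one] at h1
    exact h1
  refine ⟨L, F, hnf, hfam, hrank, fun ε B hB lam => ?_⟩
  have hroot : ∀ j, rootNumber ε lam (F j) = rootNumber ε lam K ^ Module.finrank K (F j) :=
    fun j => rootNumber_split ε lam (F j) (fun v hv => (hfam.special j).split v (hB hv))
      (hfam.special j).real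
  have hrprod : ∏ j, rootNumber ε lam (F j) = rootNumber ε lam K := by
    have h1 : ∀ j, rootNumber ε lam (F j) =
        rootNumber ε lam K ^ (exponent j * (Module.finrank K (F j) : ℤ)) := by
      intro j
      rw [zpow_mul, unit_zpow_odd _ (odd_exponent j), zpow_natCast, hroot]
    have h2 : ∀ T : Finset (Fin r), ∏ j ∈ T,
        rootNumber ε lam K ^ (exponent j * (Module.finrank K (F j) : ℤ)) =
          rootNumber ε lam K ^ (∑ j ∈ T, exponent j * (Module.finrank K (F j) : ℤ)) := by
      intro T
      induction T using Finset.induction_on with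
      | empty => simp
      | insert a T ha ih => rw [Finset.prod_insert ha, Finset.sum_insert ha, zpow_add, ih]
    rw [Finset.prod_congr rfl fun j _ => h1 j, h2, hdeg, zpow_one]
  refine ⟨hroot, fun k W _ _ _ _ ρ => ?_⟩
  have key : (∀ j, FiniteDimensional k (fixedBy ρ (F j))) →
      (-1) ^ Module.finrank k (Representation.invariants ρ) * rootNumber ε lam K =
        ∏ j, (-1) ^ Module.finrank k (fixedBy ρ (F j)) * rootNumber ε lam (F j) := by
    intro hfin
    obtain ⟨h1, h2⟩ := hrank k W ρ hfin
    rw [Finset.prod_mul_distrib, hrprod]
    congr 1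
    have h4 : ∀ T : Finset (Fin r), (-1 : ℤˣ) ^
        (∑ j ∈ T, exponent j * (Module.finrank k (fixedBy ρ (F j)) : ℤ)) =
          ∏ j ∈ T, (-1 : ℤˣ) ^ (exponent j * (Module.finrank k (fixedBy ρ (F j)) : ℤ)) := by
      intro T
      induction T using Finset.induction_on with
      | empty => simp
      | insert a T ha ih => rw [Finset.prod_insert ha, Finset.sum_insert ha, zpow_add, ih]
    rw [← zpow_natCast, h2, h4]
    refine Finset.prod_congr rfl fun j _ => ?_
    rw [zpow_mul, unit_zpow_odd _ (odd_exponent j), zpow_natCast]
  refine ⟨key, fun h => ?_⟩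
  have h1 := (hrank k W ρ fun j => (h j).1).1
  have h2 := key fun j => (h j).1
  refine ⟨h1, ?_⟩
  have h3 : (-1 : ℤˣ) ^ Module.finrank k (Representation.invariants ρ) * rootNumber ε lam K = 1 := by
    rw [h2]
    refine Finset.prod_eq_one fun j _ => ?_
    rw [(h j).2]
    exact Int.units_mul_self _
  rw [mul_eq_one_iff_eq_inv] at h3
  rw [h3, Int.units_inv_eq_self]

end Pool.Agent.Results.MP_ddf76b_nt.PrimitiveFields
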